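import Pool.Agent.N508.ET.Bound
import Pool.Agent.N508.ET.Exa

/-!
# MP_12a1af_nt: blocks of consecutive gaps in sets with a bounded representation function

For `a_0 < a_1 < ... < a_n` let `G(l)` be the number of different blocks
`(a_{s+1} - a_s, ..., a_{s+l} - a_{s+l-1})` of `l` consecutive gaps.

1. Let `r_A ≤ K` and let `a_0 < ... < a_n` be elements of `A`, where `n ≥ 1`.  Put
   `k = ⌊log_2 K⌋`.  Then `G(l) ≥ l n ^ (1 / k) / K` for some `1 ≤ l ≤ n`.
2. The exponent `1 / k` is best possible for every `K ≥ 2`: if `n + 1 = q ^ k`, there are a set `A`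
   with `r_A ≤ K` and elements `a_0 < ... < a_n` of `A` with `G(l) ≤ (k + 1) l (n + 1) ^ (1 / k)`
   for all `l ≥ 1`.
3. If, for some `C` and every `ε > 0`, `A` has arbitrarily large finite subsets
   `{a_0 < ... < a_n}` with `G(l) ≤ n ^ ε l ^ C` for all `1 ≤ l ≤ n`, then `r_A` is unbounded.
   There is no hypothesis on the density of `A`.

Method.  `K` occurrences of one block of length `l` cannot lie within distance `l` of each other,
because two of them would be at distance at most `l / (K - 1)` and the set would contain an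
arithmetic progression with `K + 1` terms.  So each window of `l + (K - 1) G(l)` gaps contains two
occurrences of one block of length `l` that do not overlap.  Iterating this we find cubes whose
differences are superincreasing; a cube of dimension `k + 1` gives `2 ^ (k + 1) > K`
representations of one number.
-/

set_option autoImplicit false

namespace Pool.Agent.Results.MP_12a1af_nt.GapBlocks

/-- `r_A(n)`: the number of ordered pairs `(a, b) ∈ A × A` with `a + b = n`. -/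
noncomputable def rep (A : Set ℕ) (n : ℕ) : ℕ :=
  {p : ℕ × ℕ | p.1 ∈ A ∧ p.2 ∈ A ∧ p.1 + p.2 = n}.ncard

/-- `a_0 < a_1 < ... < a_n`, and these numbers are elements of `A`. -/
def IncIn (A : Set ℕ) (a : ℕ → ℕ) (n : ℕ) : Prop :=
  (∀ i < n, a i < a (i + 1)) ∧ ∀ i ≤ n, a i ∈ A

/-- The number of different blocks `(a_{s+1} - a_s, ..., a_{s+l} - a_{s+l-1})`, `0 ≤ s ≤ n - l`, of
`l` consecutive gaps of `a_0 < a_1 < ... < a_n`. -/
noncomputable def blocks (a : ℕ → ℕ) (n l : ℕ) : ℕ :=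
  ((fun s : ℕ => fun i : Fin l => a (s + i + 1) - a (s + i)) '' {s | s + l ≤ n}).ncard

theorem result :
    (∀ (A : Set ℕ) (K : ℕ), (∀ s, rep A s ≤ K) → ∀ (n : ℕ) (a : ℕ → ℕ), 1 ≤ n → IncIn A a n →
      ∃ l, 1 ≤ l ∧ l ≤ n ∧ n * l ^ Nat.log 2 K ≤ (K * blocks a n l) ^ Nat.log 2 K) ∧
    (∀ K q : ℕ, 2 ≤ K → 1 ≤ q → ∃ (A : Set ℕ) (a : ℕ → ℕ) (n : ℕ), (∀ s, rep A s ≤ K) ∧
      IncIn A a n ∧ n + 1 = q ^ Nat.log 2 K ∧
      ∀ l, 1 ≤ l → blocks a n l ≤ (Nat.log 2 K + 1) * q * l) ∧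
    (∀ (A : Set ℕ) (C : ℕ),
      (∀ ε : ℝ, 0 < ε → ∀ N : ℕ, ∃ (n : ℕ) (a : ℕ → ℕ), N ≤ n ∧ IncIn A a n ∧
        ∀ l, 1 ≤ l → l ≤ n → (blocks a n l : ℝ) ≤ (n : ℝ) ^ ε * (l : ℝ) ^ C) →
      ∀ K : ℕ, ∃ s, K < rep A s) := by
  refine ⟨?_, ?_, ?_⟩
  · intro A K hK n a hn ha
    exact Pool.Agent.N508.ET.max_form hK hn ha.1 ha.2
  · intro K q hK hq
    obtain ⟨A, a, n, h1, h2, h3, h4, h5⟩ := Pool.Agent.N508.ET.example_set hK hq
    exact ⟨A, a, n, h1, ⟨h3, h4⟩, h2, h5⟩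
  · intro A C h
    apply Pool.Agent.N508.ET.unbounded (C := C)
    intro ε hε N
    obtain ⟨n, a, h1, h2, h3⟩ := h ε hε N
    exact ⟨n, a, h1, h2.1, h2.2, h3⟩

end Pool.Agent.Results.MP_12a1af_nt.GapBlocks
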