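import Pool.Agent.N664.FC.Infinite
import Pool.Agent.N664.FC.Sharp2

/-!
# MP_12a1af_nt: power growth of the representation function for sets of linear factor complexity

Let `p_B(L)` be the factor complexity of the characteristic sequence `1_B(0) 1_B(1) 1_B(2) ...`:
the number of its different factors (blocks of consecutive terms) of length `L`.

1. (finite and uniform) For every `α > 0` there is `c > 0` such that, if `B ⊆ A`, `B` is contained in
   `[0, N)`, has at least `N ^ α` elements, and `p_B(L) ≤ Φ L` for all `L ≥ 1`, where `N, Φ ≥ 2`,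
   then `r_A(n) ≥ N ^ (c / log Φ)` for some `n < 2 N`.
2. (infinite) If `B ⊆ A` has at least `N ^ α` elements below `N` for arbitrarily large `N`, and
   `p_B(L) ≤ L φ(L)` with a non-decreasing `φ ≥ 2`, then, for arbitrarily large `N`, there is
   `n < N` with `r_A(n) ≥ N ^ (c / log φ(N))`.
3. So, if `r_A(n) ≥ 1` for all large `n`, or `a_n ≤ D n ^ 2` for all `n ≥ 1`, and `p_A(L) ≤ C L`, then
   `r_A(n) ≥ n ^ (c / log C)` for infinitely many `n`, with an absolute constant `c > 0`.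
4. This is optimal up to the value of `c`: for every `Φ ≥ 4096` there is an infinite set `A` with
   `a_n ≤ Φ n ^ 2`, `p_A(L) ≤ Φ L` and `r_A(n) ≤ 18 n ^ (6 / log Φ)`.

Method.  We consider words `w` with many occurrences, a symmetric set of places in `w`, and the
previous word with its symmetric set inside `w`.  Occurrences of `w` which overlap much form runs,
arithmetic progressions whose difference is a period of `w`; a run of `q` occurrences contains a
symmetric set of size at least `q / 2` times the one of the *previous* word, so the loss caused by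
the runs is a power of what the symmetric set gains in two steps.  Between runs one chooses a class
`[2 ^ i V, 2 ^ (i + 1) V)` of distances with geometric weights `2 ^ (- ε i)` instead of pigeonholing
into `log X` classes; the weights telescope, since the length of the word grows by the factor
`2 ^ i`.  So every step doubles the symmetric set and costs a factor `O_ε(Φ)` only.
-/

set_option autoImplicit false

open Filter

namespace Pool.Agent.Results.MP_12a1af_nt.LinearComplexityGrowth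

/-- `r_A(n)`: the number of ordered pairs `(a, b) ∈ A × A` with `a + b = n`. -/
noncomputable def rep (A : Set ℕ) (n : ℕ) : ℕ :=
  {p : ℕ × ℕ | p.1 ∈ A ∧ p.2 ∈ A ∧ p.1 + p.2 = n}.ncard

/-- `elt A n` is the `n`-th element `a_n` (`n ≥ 1`) of the infinite set `A` listed increasingly. -/
noncomputable def elt (A : Set ℕ) (n : ℕ) : ℕ := Nat.nth (· ∈ A) (n - 1)

/-- The factor complexity `p_A(L)`: the number of different subsets
`{i | 0 ≤ i < L, s + i ∈ A}` of `{0, ..., L - 1}`, for `s = 0, 1, 2, ...`. -/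
noncomputable def complexity (A : Set ℕ) (L : ℕ) : ℕ :=
  (Set.range (fun s : ℕ => {i : Fin L | s + (i : ℕ) ∈ A})).ncard

theorem result :
    (∀ α : ℝ, 0 < α → ∃ c : ℝ, 0 < c ∧ ∀ (N : ℕ) (Φ : ℝ) (A B : Set ℕ), 2 ≤ N → 2 ≤ Φ →
      B ⊆ A → (∀ b ∈ B, b < N) → (N : ℝ) ^ α ≤ B.ncard →
      (∀ L : ℕ, 1 ≤ L → (complexity B L : ℝ) ≤ Φ * L) →
      ∃ n < 2 * N, (N : ℝ) ^ (c / Real.log Φ) ≤ rep A n) ∧
    (∀ α : ℝ, 0 < α → ∃ c : ℝ, 0 < c ∧ ∀ (A B : Set ℕ) (φ : ℕ → ℝ), B ⊆ A → Monotone φ →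
      (∀ L, 2 ≤ φ L) → (∀ L : ℕ, 1 ≤ L → (complexity B L : ℝ) ≤ L * φ L) →
      (∃ᶠ N : ℕ in atTop, (N : ℝ) ^ α ≤ (B ∩ Set.Iio N).ncard) →
      ∃ᶠ N : ℕ in atTop, ∃ n < N, (N : ℝ) ^ (c / Real.log (φ N)) ≤ rep A n) ∧
    (∃ c : ℝ, 0 < c ∧ ∀ (A : Set ℕ) (C : ℝ), 2 ≤ C →
      (∀ L : ℕ, 1 ≤ L → (complexity A L : ℝ) ≤ C * L) →
      ((∀ᶠ n : ℕ in atTop, 1 ≤ rep A n) ∨
        (A.Infinite ∧ ∃ D : ℝ, ∀ n : ℕ, 1 ≤ n → (elt A n : ℝ) ≤ D * (n : ℝ) ^ 2)) →
      ∃ᶠ n : ℕ in atTop, (n : ℝ) ^ (c / Real.log C) ≤ rep A n) ∧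
    (∀ Φ : ℝ, 4096 ≤ Φ → ∃ A : Set ℕ, A.Infinite ∧
      (∀ n : ℕ, 1 ≤ n → (elt A n : ℝ) ≤ Φ * (n : ℝ) ^ 2) ∧
      (∀ L : ℕ, 1 ≤ L → (complexity A L : ℝ) ≤ Φ * L) ∧
      ∀ n : ℕ, 1 ≤ n → (rep A n : ℝ) ≤ 18 * (n : ℝ) ^ (6 / Real.log Φ)) := by
  refine ⟨?_, ?_, ?_, ?_⟩
  · intro α hα
    obtain ⟨c, hc, h⟩ := Pool.Agent.N664.FC.power_finite hα
    refine ⟨c, hc, ?_⟩
    intro N Φ A B hN hΦ hBA hBN hcard hp
    refine h N Φ A B hN hΦ hBA hBN ?_ ?_
    · rw [← Pool.Agent.W227.FC.cnt_eq]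
      have h1 : B ∩ Set.Iio N = B := by
        ext x
        exact ⟨fun h => h.1, fun h => ⟨h, hBN x h⟩⟩
      rw [h1]
      exact hcard
    · intro L hL
      refine le_trans ?_ (hp L hL)
      exact_mod_cast Pool.Agent.W227.FC.cplx_le B L
  · intro α hα
    exact Pool.Agent.N664.FC.power_infinite hα
  · obtain ⟨c, hc, h⟩ := Pool.Agent.N664.FC.power_linear (α := 1 / 4) (by norm_num)
    refine ⟨c, hc, ?_⟩
    intro A C hC hp hgr
    refine h A A C (le_refl _) hC hp ?_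
    rcases hgr with h1 | ⟨hinf, D, hD⟩
    · exact Pool.Agent.N664.FC.freq_of_rep h1 (by norm_num)
    · exact Pool.Agent.W227.FC.freq_of_elt hinf hD (by norm_num)
  · intro Φ hΦ
    exact Pool.Agent.N664.FC.sharp hΦ

end Pool.Agent.Results.MP_12a1af_nt.LinearComplexityGrowth
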