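import Mathlib
import Pool.Agent.N715.QC.Mixed

/-!
# The Erdős–Turán problem (MP_12a1af_nt): few square progressions, integral splines

`rep A s` is the number `r_A(s)` of ordered pairs `(a, b) ∈ A × A` with `a + b = s`, and
`E x = exp (√(log x / log log x) / 200)`, a function which grows faster than any power of `log x`.

1. Suppose that for infinitely many `N` at least `√N / E N` elements `a ≤ N` of `A` are within
   distance `E N` of the union of at most `E N` sets of the following two types: square progressions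
   `{α m² + δ : m ≤ √N · E N}` with arbitrary real numbers `α`, `δ`; images of intervals of at most
   `√N · E N` consecutive integers under polynomials of degree at most `D` which take integer values
   of absolute value at most `2 N` there. These sets may be different for different `N`.
   Then `r_A(s) ≥ E s` for infinitely many `s`.
2. Consequence: let `a_0 < a_1 < …` be natural numbers such that, for infinitely many `n`,
   `a_n ≤ n² · E n` and `a_0, …, a_{n-1}` are, up to errors at most `E n`, the values of an integral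
   spline of degree at most `D` with at most `E n` pieces. Then `r_A(s) ≥ E s` for infinitely many
   `s`, where `A = {a_0, a_1, …}`.
3. So Q1 and Q2 hold for all such splines. For example, they hold for all sequences such that, for
   some `d` and for infinitely many `n`, the `d`-th difference of the sequence vanishes at all
   `k < n` with at most `E n - 1` exceptions (for `d = 3`: sequences whose second difference
   changes rarely).

This contains sequences which are completely different at different scales. Method: a piece with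
many elements has degree at most two (finite differences); completing the square, a quadratic piece
lies in one progression `α m² + δ`; the method of the starting file `NearSquares` (many moduli which
are products of primes `1` modulo `4`) applies uniformly in `α` and `δ`.
-/

open Finset Filter Topology Real Polynomial

namespace Pool.Agent.Results.MP_12a1af_nt.QuadraticCoverings

/-- The number `r_A(s)` of ordered pairs `(a, b)` of elements of `A` with `a + b = s`. -/
noncomputable def rep (A : Set ℕ) (s : ℕ) : ℕ :=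
  {p : ℕ × ℕ | p.1 ∈ A ∧ p.2 ∈ A ∧ p.1 + p.2 = s}.ncard

/-- `E x = exp (√(log x / log log x) / 200)`. -/
noncomputable def E (x : ℝ) : ℝ := exp (1 / 200 * sqrt (log x / log (log x)))

/-- The terms `a k`, `k < n`, are up to an error `G` given by an integral spline of degree at most
`D` with at most `p` pieces: there are `q ≤ p` intervals `[c i, c (i + 1))` which make up `[0, n)`,
and on each of them a polynomial of degree at most `D` with integer values which are within distance
`G` of the numbers `a k`. -/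
def Spline (a : ℕ → ℕ) (D n : ℕ) (p G : ℝ) : Prop :=
  ∃ (q : ℕ) (c : ℕ → ℕ) (P : ℕ → ℝ[X]), (q : ℝ) ≤ p ∧ Monotone c ∧ c 0 = 0 ∧ c q = n ∧
    ∀ i < q, (P i).natDegree ≤ D ∧ ∀ k, c i ≤ k → k < c (i + 1) →
      (∃ z : ℤ, (P i).eval (k : ℝ) = z) ∧ |(a k : ℝ) - (P i).eval (k : ℝ)| ≤ G

/-- The `d`-th difference of the sequence `a` at `k`. -/
def diff (d : ℕ) (a : ℕ → ℕ) (k : ℕ) : ℤ :=
  ∑ i ∈ range (d + 1), (-1) ^ (d - i) * (d.choose i : ℤ) * (a (k + i) : ℤ)

open Classical in
theorem result :
    -- 1. coverings by few square progressions and polynomial progressions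
    (∀ (D : ℕ) (A : Set ℕ), (∃ᶠ N : ℕ in atTop, ∃ (F : Finset (ℝ × ℝ)) (H : Finset (ℝ[X] × ℕ)),
        (F.card : ℝ) + H.card ≤ E N ∧
        (∀ p ∈ H, p.1.natDegree ≤ D ∧ (p.2 : ℝ) ≤ sqrt N * E N ∧
          ∀ t < p.2, (∃ z : ℤ, p.1.eval (t : ℝ) = z) ∧ |p.1.eval (t : ℝ)| ≤ 2 * N) ∧
        sqrt N ≤ E N * ({a : ℕ | a ∈ A ∧ a ≤ N ∧
          ((∃ p ∈ F, ∃ m : ℕ, (m : ℝ) ≤ sqrt N * E N ∧
            |(a : ℝ) - (p.1 * m ^ 2 + p.2)| ≤ E N) ∨
          (∃ p ∈ H, ∃ t : ℕ, t < p.2 ∧ |(a : ℝ) - p.1.eval (t : ℝ)| ≤ E N))}.ncard : ℝ)) →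
      ∃ᶠ s : ℕ in atTop, E s ≤ rep A s) ∧
    -- 2. integral splines with few pieces
    (∀ a : ℕ → ℕ, StrictMono a → ∀ D : ℕ,
      (∃ᶠ n : ℕ in atTop, (a n : ℝ) ≤ n ^ 2 * E n ∧ Spline a D n (E n) (E n)) →
      ∃ᶠ s : ℕ in atTop, E s ≤ rep (Set.range a) s) ∧
    -- 3. the two questions for splines, and for sequences with rarely nonzero `d`-th difference
    (∀ a : ℕ → ℕ, StrictMono a →
      ((∀ᶠ s : ℕ in atTop, 1 ≤ rep (Set.range a) s) ∨
        ∃ C : ℝ, ∀ n : ℕ, (a n : ℝ) ≤ C * ((n : ℝ) + 1) ^ 2) →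
      ((∃ D : ℕ, ∃ᶠ n : ℕ in atTop, Spline a D n (E n) (E n)) ∨
        ∃ d ≥ 1, ∃ᶠ n : ℕ in atTop,
          (((range n).filter (fun k => diff d a k ≠ 0)).card : ℝ) + 1 ≤ E n) →
      (∃ᶠ s : ℕ in atTop, E s ≤ rep (Set.range a) s) ∧ ∀ K : ℕ, ∃ s, K < rep (Set.range a) s) := by
  have h3 : ∀ a : ℕ → ℕ, StrictMono a → ∀ D : ℕ,
      (∃ᶠ n : ℕ in atTop, (a n : ℝ) ≤ n ^ 2 * E n ∧ Spline a D n (E n) (E n)) →
      ∃ᶠ s : ℕ in atTop, E s ≤ rep (Set.range a) s := fun a ha D h =>
    Pool.Agent.N715.QC.spline a ha D h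
  refine ⟨fun D A h => ?_, h3, fun a ha hgr hsp => ?_⟩
  · refine Pool.Agent.N715.QC.Er_le_rep A ?_
    refine (h.and_eventually (Pool.Agent.N715.QC.mixed D)).mono ?_
    rintro N ⟨⟨F, H, hF, hp, hc⟩, hN⟩
    exact hN A F H hF hp hc
  · have hgrow : ∀ᶠ n : ℕ in atTop, (a n : ℝ) ≤ n ^ 2 * E n := by
      rcases hgr with h | ⟨C, hC⟩
      · exact Pool.Agent.N715.QC.basis_growth a ha h
      · filter_upwards [Pool.Agent.N715.QC.Er_tendsto.eventually
          (eventually_ge_atTop (4 * |C|)), eventually_ge_atTop 1] with n h1 h2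
        have h3 : (1 : ℝ) ≤ n := by exact_mod_cast h2
        have h4 : ((n : ℝ) + 1) ^ 2 ≤ 4 * n ^ 2 := by nlinarith
        calc (a n : ℝ) ≤ C * ((n : ℝ) + 1) ^ 2 := hC n
          _ ≤ |C| * ((n : ℝ) + 1) ^ 2 := mul_le_mul_of_nonneg_right (le_abs_self C) (by positivity)
          _ ≤ |C| * (4 * n ^ 2) := mul_le_mul_of_nonneg_left h4 (abs_nonneg C)
          _ = n ^ 2 * (4 * |C|) := by ring
          _ ≤ n ^ 2 * E n := mul_le_mul_of_nonneg_left h1 (by positivity)
    have hsp' : ∃ D : ℕ, ∃ᶠ n : ℕ in atTop, Spline a D n (E n) (E n) := by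
      rcases hsp with h | ⟨d, hd, h⟩
      · exact h
      · refine ⟨d, h.mono fun n hn => ?_⟩
        exact Pool.Agent.N715.QC.spline_of_diff a hd n _ _ (exp_pos _).le hn
    obtain ⟨D, hD⟩ := hsp'
    have hmain := h3 a ha D ((hD.and_eventually hgrow).mono fun n hn => ⟨hn.2, hn.1⟩)
    refine ⟨hmain, fun K => ?_⟩
    obtain ⟨s, hs1, hs2⟩ := (hmain.and_eventually (Pool.Agent.N715.QC.Er_tendsto.eventually
      (eventually_gt_atTop (K : ℝ)))).exists
    refine ⟨s, ?_⟩
    have : (K : ℝ) < rep (Set.range a) s := lt_of_lt_of_le hs2 hs1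
    exact_mod_cast this

end Pool.Agent.Results.MP_12a1af_nt.QuadraticCoverings
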