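import Pool.Agent.N508.ET.FIter
import Pool.Agent.N508.ET.Inf

/-!
# MP_12a1af_nt: the sharp exponent of the factor complexity

`p_A(L)` is the factor complexity of the characteristic sequence of `A`: the number of its different
blocks of length `L`.  Put `k = ⌊log_2 K⌋`.

1. Let `r_A ≤ K`, let `B ⊆ A` have at least `N ^ α` elements below `N` for arbitrarily large `N`, and
   let `γ ≥ 1` satisfy `γ ^ k (1 - α) < 1`.  Then `p_B(L) > L ^ γ` for infinitely many `L`.
   (The starting result `FactorComplexity` has `γ ^ (K - 1) (1 - α) < 1` as its hypothesis.)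
2. This is sharp: for `K ≥ 2`, `0 < α < 1 / 2` and `γ ≥ 1` with `γ ^ k (1 - α) > 1` there is a set
   `A` with `r_A ≤ K`, with at least `N ^ α` elements below `N` for arbitrarily large `N`, and with
   `p_A(L) ≤ L ^ γ` for all large `L`.
3. If `A` is infinite, `a_n ≤ C n ^ 2` for all `n ≥ 1` and `r_A ≤ K`, then `p_A(L) > L ^ γ` for
   infinitely many `L`, for every `γ < 2 ^ (1 / k)`.

Method.  (1) A word of length `L` containing an element of `A` cannot occur twice at distance
`≤ L / K`, since this gives an arithmetic progression with `K + 1` terms in `A`; so of `K + 1`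
consecutive occurrences the first and the last do not overlap, and the cubes found by iteration have
superincreasing differences: a cube of dimension `k + 1` has `2 ^ (k + 1) > K` representations of the
sum of its opposite vertices.  (2) `A` is a sparse union of translates of the sets of the numbers
`∑ (G_i t_i + H_i (t_i ^ 2 mod p_i))`, `0 ≤ t_i < s_i`, `i < k`, where the weights
`H_0 < H_1 < ... < G_0 < G_1 < ...` admit no carries and `s_i` is about `G_i ^ (γ - 1)`.
-/

set_option autoImplicit false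

open Filter

namespace Pool.Agent.Results.MP_12a1af_nt.SharpFactorComplexity

/-- `r_A(n)`: the number of ordered pairs `(a, b) ∈ A × A` with `a + b = n`. -/
noncomputable def rep (A : Set ℕ) (n : ℕ) : ℕ :=
  {p : ℕ × ℕ | p.1 ∈ A ∧ p.2 ∈ A ∧ p.1 + p.2 = n}.ncard

/-- `elt A n` is the `n`-th element `a_n` (`n ≥ 1`) of the infinite set `A` listed increasingly. -/
noncomputable def elt (A : Set ℕ) (n : ℕ) : ℕ := Nat.nth (· ∈ A) (n - 1)

/-- The factor complexity `p_A(L)`: the number of different subsets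
`{i | 0 ≤ i < L, s + i ∈ A}` of `{0, ..., L - 1}`, for `s = 0, 1, 2, ...`. -/
noncomputable def complexity (A : Set ℕ) (L : ℕ) : ℕ :=
  (Set.range (fun s : ℕ => {i : Fin L | s + (i : ℕ) ∈ A})).ncard

/-- For arbitrarily large `N` the set `A` has at least `N ^ α` elements below `N`. -/
def OftenDense (A : Set ℕ) (α : ℝ) : Prop :=
  ∃ᶠ N : ℕ in atTop, (N : ℝ) ^ α ≤ (A ∩ Set.Iio N).ncard

theorem result :
    (∀ (A B : Set ℕ) (K : ℕ) (α γ : ℝ), B ⊆ A → (∀ n, rep A n ≤ K) → OftenDense B α → 1 ≤ γ →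
      γ ^ Nat.log 2 K * (1 - α) < 1 → ∃ᶠ L : ℕ in atTop, (L : ℝ) ^ γ < complexity B L) ∧
    (∀ (K : ℕ) (α γ : ℝ), 2 ≤ K → 0 < α → α < 1 / 2 → 1 ≤ γ →
      1 < γ ^ Nat.log 2 K * (1 - α) → ∃ A : Set ℕ, (∀ n, rep A n ≤ K) ∧ OftenDense A α ∧
        ∀ᶠ L : ℕ in atTop, (complexity A L : ℝ) ≤ (L : ℝ) ^ γ) ∧
    (∀ (A : Set ℕ) (K : ℕ), A.Infinite →
      (∃ C : ℝ, ∀ n : ℕ, 1 ≤ n → (elt A n : ℝ) ≤ C * (n : ℝ) ^ 2) → (∀ n, rep A n ≤ K) →
      ∀ γ : ℝ, 1 ≤ γ → γ ^ Nat.log 2 K < 2 → ∃ᶠ L : ℕ in atTop, (L : ℝ) ^ γ < complexity A L) := by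
  refine ⟨?_, ?_, ?_⟩
  · intro A B K α γ hBA hK hB hγ hm
    exact Pool.Agent.N508.ET.fmain hBA hK hγ hm hB
  · intro K α γ hK hα0 hα2 hγ hm
    exact Pool.Agent.N508.ET.example_all hK hα0 hα2 hγ hm
  · rintro A K hinf ⟨C, hC⟩ hK γ hγ hγ2
    -- choose `α < 1 / 2` with `γ ^ k (1 - α) < 1`
    have hpos : 0 < γ ^ Nat.log 2 K := by positivity
    have h1 : 1 - 1 / γ ^ Nat.log 2 K < 1 / 2 := by
      have : 1 / 2 < 1 / γ ^ Nat.log 2 K := by
        rw [div_lt_div_iff₀ (by norm_num) hpos]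
        linarith
      linarith
    obtain ⟨α, hα1, hα2⟩ := exists_between h1
    refine Pool.Agent.N508.ET.fmain (le_refl _) hK hγ (α := α) ?_
      (Pool.Agent.W227.FC.freq_of_elt hinf hC hα2)
    have h2 : 1 - α < 1 / γ ^ Nat.log 2 K := by linarith
    rw [lt_div_iff₀ hpos] at h2
    linarith

end Pool.Agent.Results.MP_12a1af_nt.SharpFactorComplexity
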